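import Pool.Agent.H84.FK.Targets3

/-! Module Z7A of the board fk2_modules (MP_85c4d1_al): the Sylow 2-subgroup is dihedral of
order 8. -/

set_option autoImplicit false
set_option linter.unusedVariables false

namespace Pool.Agent.H51.FKZ7A

open Pool.Agent.H84.FK

/-- a power is an involution -/
lemma pow_inv {G : Type} [Group G] (x : G) : ∀ k : ℕ, x ≠ 1 → x ^ (2 ^ k) = 1 →
    ∃ m : ℕ, x ^ m ≠ 1 ∧ x ^ m * x ^ m = 1
  | 0, h, h1 => absurd (by simpa using h1) h
  | k + 1, h, h1 => by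
    by_cases h2 : x ^ (2 ^ k) = 1
    · exact pow_inv x k h h2
    · refine ⟨2 ^ k, h2, ?_⟩
      rw [← pow_add, ← two_mul, ← pow_succ']
      exact h1

/-- a central involution -/
lemma cen_inv {G : Type} [Group G] [Finite G] (A A0 : Subgroup G) (hab : Ab A0) (ht : Two A A0)
    (h2 : 2 ∣ Nat.card A0) (a : G) (ha : a ∈ A) (ha0 : a ∉ A0) :
    ∃ u ∈ A0, u * u = 1 ∧ u ≠ 1 ∧ ∀ x ∈ A, x * u = u * x := by
  have hinv : ∃ x ∈ A0, x * x = 1 ∧ x ≠ 1 := by
    have : Fact (Nat.Prime 2) := ⟨Nat.prime_two⟩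
    obtain ⟨x, hx⟩ := exists_prime_orderOf_dvd_card' 2 h2
    refine ⟨x.1, x.2, ?_, ?_⟩
    · have h := pow_orderOf_eq_one x
      rw [hx, sq] at h
      exact_mod_cast congrArg Subtype.val h
    · intro h
      have h1 : x = 1 := Subtype.ext h
      rw [h1, orderOf_one] at hx
      exact absurd hx (by norm_num)
  obtain ⟨x, hx, hxx, hx1⟩ := hinv
  have hxi : x⁻¹ = x := inv_eq_of_mul_eq_one_left hxx
  -- conjugation by a
  have hcj : ∀ y ∈ A0, a * y * a⁻¹ ∈ A0 := by
    intro y hy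
    have hyA := ht.1 hy
    by_contra hc
    have h1 : a * y * a⁻¹ ∈ A := A.mul_mem (A.mul_mem ha hyA) (A.inv_mem ha)
    have h2 := ht.2 _ h1 a ha hc ha0
    rw [inv_mul_cancel_right] at h2
    exact ha0 (by simpa using A0.mul_mem h2 (A0.inv_mem hy))
  have hcomm : ∀ u ∈ A0, a * u = u * a → ∀ y ∈ A, y * u = u * y := by
    intro u hu h1 y hy
    by_cases hy0 : y ∈ A0
    · exact hab y hy0 u hu
    · have h2 := hab _ (ht.2 y hy a ha hy0 ha0) u hu
      have h3 : y * u * a = u * y * a := by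
        calc y * u * a = y * (u * a) := by group
          _ = y * (a * u) := by rw [h1]
          _ = (y * a) * u := by group
          _ = u * (y * a) := h2
          _ = u * y * a := by group
      exact mul_right_cancel h3
  have haa : a * a ∈ A0 := ht.2 a ha a ha ha0 ha0
  by_cases hc : a * x = x * a
  · exact ⟨x, hx, hxx, hx1, hcomm x hx hc⟩
  · have hy := hcj x hx
    have hxy := hab x hx _ hy
    refine ⟨x * (a * x * a⁻¹), A0.mul_mem hx hy, ?_, ?_, hcomm _ (A0.mul_mem hx hy) ?_⟩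
    · have e1 : (a * x * a⁻¹) * (a * x * a⁻¹) = 1 := by
        calc (a * x * a⁻¹) * (a * x * a⁻¹) = a * (x * x) * a⁻¹ := by group
          _ = 1 := by rw [hxx]; group
      generalize a * x * a⁻¹ = v at e1 hxy
      calc x * v * (x * v) = x * (v * x) * v := by group
        _ = x * (x * v) * v := by rw [← hxy]
        _ = (x * x) * (v * v) := by group
        _ = 1 := by rw [hxx, e1, one_mul]
    · intro h
      apply hc
      have h1 : a * x * a⁻¹ = x := (eq_inv_of_mul_eq_one_right h).trans hxi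
      calc a * x = (a * x * a⁻¹) * a := by group
        _ = x * a := by rw [h1]
    · have h1 : a * (a * x * a⁻¹) * a⁻¹ = x := by
        calc a * (a * x * a⁻¹) * a⁻¹ = (a * a) * x * (a * a)⁻¹ := by group
          _ = x * (a * a) * (a * a)⁻¹ := by rw [hab _ haa x hx]
          _ = x := by group
      calc a * (x * (a * x * a⁻¹)) = (a * x * a⁻¹) * (a * (a * x * a⁻¹) * a⁻¹) * a := by group
        _ = (a * x * a⁻¹) * x * a := by rw [h1]
        _ = x * (a * x * a⁻¹) * a := by rw [hxy]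

theorem pf_z7a (hSYL : T_SYL) (hZ5 : T_Z5) (hD3 : T_D3) (hD4 : T_D4) : T_Z7A := by
  intro G _ A A0 B B0 h hA hB
  have : Finite G := h.fin
  obtain ⟨S, sy⟩ := hSYL G A A0 B B0 h
  obtain ⟨-, -, cA, -, cG, -, -⟩ := hD4 G A A0 B B0 h
  obtain ⟨s, hsS, hsB, hsn⟩ := sy.sB
  obtain ⟨w, hwS, hwA, hwn⟩ := sy.sA
  -- 2-elements of B0
  have tS : ∀ y ∈ S, ∃ k : ℕ, y ^ (2 ^ k) = 1 := by
    intro y hy
    obtain ⟨k, hk⟩ := sy.pg ⟨y, hy⟩
    exact ⟨k, by simpa using congrArg Subtype.val hk⟩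
  have L1 : ∀ y ∈ S, y ∈ B0 → y = 1 := by
    intro y hy hy0
    obtain ⟨k, hk⟩ := tS y hy
    have h1 : orderOf y ∣ 2 ^ k := orderOf_dvd_of_pow_eq_one hk
    have h2 : orderOf y ∣ Nat.card B0 := Subgroup.orderOf_dvd_natCard B0 hy0
    have h3 : Nat.Coprime (2 ^ k) (Nat.card B0) :=
      Nat.Coprime.pow_left _ ((Nat.Prime.coprime_iff_not_dvd Nat.prime_two).2 hB)
    exact orderOf_eq_one_iff.1 (Nat.eq_one_of_dvd_coprimes h3 h1 h2)
  have ss : s * s = 1 := L1 _ (S.mul_mem hsS hsS) (h.twoB.2 s hsB s hsB hsn hsn)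
  have si : s⁻¹ = s := inv_eq_of_mul_eq_one_left ss
  have sA : s ∉ A := by
    intro hs
    have := hD3 G A A0 B B0 h 1 s s hs hsB (by simp)
    exact hsn (this ▸ B0.one_mem)
  have fS : ∀ g ∈ S, g ∈ A ∨ g * s ∈ A := by
    intro g hg
    obtain ⟨a, ha, haS, b, hb, hbS, rfl⟩ := sy.fac g hg
    by_cases hb0 : b ∈ B0
    · rw [L1 b hbS hb0, mul_one]
      exact Or.inl ha
    · right
      have h1 : b * s = 1 := L1 _ (S.mul_mem hbS hsS) (h.twoB.2 b hb s hsB hb0 hsn)
      rw [mul_assoc, h1, mul_one]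
      exact ha
  have cS : ∀ x ∈ S, s * x * s⁻¹ ∈ S := fun x hx =>
    S.mul_mem (S.mul_mem hsS hx) (S.inv_mem hsS)
  have nS : ∀ x ∈ S, x ∈ A → s * x * s⁻¹ ∈ A := by
    intro x hx hxA
    rcases fS _ (cS x hx) with h1 | h1
    · exact h1
    · rw [inv_mul_cancel_right] at h1
      exact absurd (by simpa using A.mul_mem h1 (A.inv_mem hxA)) sA
  -- star
  have star : ∀ x ∈ S, x ∈ A0 → w * x = x * w → s * x = x * s → x = 1 := by
    intro x hx hx0 hxw hxs
    by_contra hne
    obtain ⟨k, hk⟩ := tS x hx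
    obtain ⟨m, hm1, hm2⟩ := pow_inv x k hne hk
    have hm0 : x ^ m ∈ A0 := A0.pow_mem hx0 m
    have hmw : w * x ^ m = x ^ m * w := (show Commute w x from hxw).pow_right m
    have hms : s * x ^ m = x ^ m * s := (show Commute s x from hxs).pow_right m
    have hmA : ∀ a ∈ A, a * x ^ m = x ^ m * a := by
      intro a ha
      by_cases ha0 : a ∈ A0
      · exact h.abA a ha0 _ hm0
      · have h2 := h.abA _ (h.twoA.2 a ha w hwA ha0 hwn) _ hm0
        have h3 : a * x ^ m * w = x ^ m * a * w := by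
          calc a * x ^ m * w = a * (x ^ m * w) := by group
            _ = a * (w * x ^ m) := by rw [hmw]
            _ = (a * w) * x ^ m := by group
            _ = x ^ m * (a * w) := h2
            _ = x ^ m * a * w := by group
        exact mul_right_cancel h3
    exact hsn (hZ5 G A A0 B B0 h (x ^ m) s (h.twoA.1 hm0) hmA hm2 hm1 hsB hms)
  -- the involution u
  obtain ⟨u, hu0, huu, hu1, huA⟩ := cen_inv A A0 h.abA h.twoA hA w hwA hwn
  have huS : u ∈ S := sy.uA u hu0 ⟨1, by rw [pow_one, sq]; exact huu⟩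
  have hui : u⁻¹ = u := inv_eq_of_mul_eq_one_left huu
  have hsu : s * u ≠ u * s := fun hc =>
    hsn (hZ5 G A A0 B B0 h u s (h.twoA.1 hu0) huA huu hu1 hsB hc)
  -- the involution z
  obtain ⟨z, hz⟩ : ∃ z, z = u * (s * u * s⁻¹) := ⟨_, rfl⟩
  have hvA := nS u huS (h.twoA.1 hu0)
  have hzA : z ∈ A := hz ▸ A.mul_mem (h.twoA.1 hu0) hvA
  have hzS : z ∈ S := hz ▸ S.mul_mem huS (cS u huS)
  have huv := huA _ hvA
  have hvv : (s * u * s⁻¹) * (s * u * s⁻¹) = 1 := by
    calc (s * u * s⁻¹) * (s * u * s⁻¹) = s * (u * u) * s⁻¹ := by group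
      _ = 1 := by rw [huu]; group
  have hzz : z * z = 1 := by
    rw [hz]
    calc u * (s * u * s⁻¹) * (u * (s * u * s⁻¹))
        = u * ((s * u * s⁻¹) * u) * (s * u * s⁻¹) := by group
      _ = u * (u * (s * u * s⁻¹)) * (s * u * s⁻¹) := by rw [huv]
      _ = (u * u) * ((s * u * s⁻¹) * (s * u * s⁻¹)) := by group
      _ = 1 := by rw [huu, hvv, one_mul]
  have hzi : z⁻¹ = z := inv_eq_of_mul_eq_one_left hzz
  have hsus : s * u * s⁻¹ = u * z := by
    rw [hz, ← mul_assoc, huu, one_mul]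
  have hz1 : z ≠ 1 := by
    intro hc
    rw [hc, mul_one] at hsus
    apply hsu
    calc s * u = (s * u * s⁻¹) * s := by group
      _ = u * s := by rw [hsus]
  have hsz : s * z = z * s := by
    have h1 : s * z * s⁻¹ = z := by
      calc s * z * s⁻¹ = (s * u * s⁻¹) * ((s * s) * u * (s * s)⁻¹) := by rw [hz]; group
        _ = (s * u * s⁻¹) * u := by rw [ss]; group
        _ = z := by rw [huv, hz]
    calc s * z = (s * z * s⁻¹) * s := by group
      _ = z * s := by rw [h1]
  have hzc : ∀ a ∈ S, a ∈ A → a * z = z * a := by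
    intro a haS haA
    have h1 := huA _ (nS a haS haA)
    have h2 : a * (s * u * s⁻¹) = (s * u * s⁻¹) * a := by
      have h3 : s * (a * (s * u * s⁻¹)) * s = s * ((s * u * s⁻¹) * a) * s := by
        calc s * (a * (s * u * s⁻¹)) * s = (s * a * s⁻¹) * ((s * s) * u) := by group
          _ = (s * a * s⁻¹) * u := by rw [ss, one_mul]
          _ = u * (s * a * s⁻¹) := h1
          _ = u * (s⁻¹ * a * s) := by rw [si]
          _ = (s * s) * u * (s⁻¹ * a * s) := by rw [ss, one_mul]
          _ = s * ((s * u * s⁻¹) * a) * s := by group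
      exact mul_left_cancel (mul_right_cancel h3)
    calc a * z = (a * u) * (s * u * s⁻¹) := by rw [hz]; group
      _ = (u * a) * (s * u * s⁻¹) := by rw [huA a haA]
      _ = u * (a * (s * u * s⁻¹)) := by group
      _ = u * ((s * u * s⁻¹) * a) := by rw [h2]
      _ = z * a := by rw [hz]; group
  have hz0 : z ∉ A0 := fun hc => hz1 (star z hzS hc (hzc w hwS hwA) hsz)
  -- elements of `A0 ∩ S` and their conjugates
  have key : ∀ x ∈ S, x ∈ A0 → s * x * s⁻¹ ∈ A0 → x = 1 := by
    intro x hx hx0 hxs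
    by_contra hne
    obtain ⟨k, hk⟩ := tS x hx
    obtain ⟨m, hm1, hm2⟩ := pow_inv x k hne hk
    obtain ⟨y, hy⟩ : ∃ y, y = x ^ m := ⟨_, rfl⟩
    rw [← hy] at hm1 hm2
    have hyS : y ∈ S := hy ▸ S.pow_mem hx m
    have hy0 : y ∈ A0 := hy ▸ A0.pow_mem hx0 m
    have hyA := h.twoA.1 hy0
    have hys : s * y * s⁻¹ ∈ A0 := by
      have h1 : s * y * s⁻¹ = (s * x * s⁻¹) ^ m := by rw [hy, conj_pow]
      rw [h1]
      exact A0.pow_mem hxs m
    have hyi : y⁻¹ = y := inv_eq_of_mul_eq_one_left hm2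
    -- `y` commutes with `A ∩ S`
    have hyc : ∀ a ∈ S, a ∈ A → a * y = y * a := by
      intro a haS haA
      by_cases ha0 : a ∈ A0
      · exact h.abA a ha0 y hy0
      · have h2 := h.abA _ (h.twoA.2 a haA z hzA ha0 hz0) y hy0
        have h3 := hzc y hyS hyA
        have h4 : a * y * z = y * a * z := by
          calc a * y * z = a * (y * z) := by group
            _ = a * (z * y) := by rw [h3]
            _ = (a * z) * y := by group
            _ = y * (a * z) := h2
            _ = y * a * z := by group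
        exact mul_right_cancel h4
    have hyv : ∀ a ∈ S, a ∈ A → a * (s * y * s⁻¹) = (s * y * s⁻¹) * a := by
      intro a haS haA
      have h1 := hyc _ (cS a haS) (nS a haS haA)
      have h3 : s * (a * (s * y * s⁻¹)) * s = s * ((s * y * s⁻¹) * a) * s := by
        calc s * (a * (s * y * s⁻¹)) * s = (s * a * s⁻¹) * ((s * s) * y) := by group
          _ = (s * a * s⁻¹) * y := by rw [ss, one_mul]
          _ = y * (s * a * s⁻¹) := h1
          _ = y * (s⁻¹ * a * s) := by rw [si]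
          _ = (s * s) * y * (s⁻¹ * a * s) := by rw [ss, one_mul]
          _ = s * ((s * y * s⁻¹) * a) * s := by group
      exact mul_left_cancel (mul_right_cancel h3)
    have h5 : y * (s * y * s⁻¹) = 1 := by
      refine star _ (S.mul_mem hyS (cS y hyS)) (A0.mul_mem hy0 hys) ?_ ?_
      · calc w * (y * (s * y * s⁻¹)) = (w * y) * (s * y * s⁻¹) := by group
          _ = (y * w) * (s * y * s⁻¹) := by rw [hyc w hwS hwA]
          _ = y * (w * (s * y * s⁻¹)) := by group
          _ = y * ((s * y * s⁻¹) * w) := by rw [hyv w hwS hwA]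
          _ = (y * (s * y * s⁻¹)) * w := by group
      · have h6 := h.abA y hy0 _ hys
        calc s * (y * (s * y * s⁻¹)) = (s * y * s⁻¹) * ((s * s) * y * (s * s)⁻¹) * s := by group
          _ = (s * y * s⁻¹) * y * s := by rw [ss]; group
          _ = (y * (s * y * s⁻¹)) * s := by rw [h6]
    have h7 : s * y * s⁻¹ = y := (eq_inv_of_mul_eq_one_right h5).trans hyi
    refine hm1 (star y hyS hy0 (hyc w hwS hwA) ?_)
    calc s * y = (s * y * s⁻¹) * s := by group
      _ = y * s := by rw [h7]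
  have hC : ∀ x ∈ S, x ∈ A0 → x = 1 ∨ x = u := by
    intro x hx hx0
    by_cases h1 : s * x * s⁻¹ ∈ A0
    · exact Or.inl (key x hx hx0 h1)
    · right
      have hv0 : s * u * s⁻¹ ∉ A0 := fun hc => hu1 (key u huS hu0 hc)
      have h2 := h.twoA.2 _ (nS x hx (h.twoA.1 hx0)) _ hvA h1 hv0
      have h3 : s * x * s⁻¹ * (s * u * s⁻¹) = s * (x * u) * s⁻¹ := by group
      rw [h3] at h2
      have h4 := key _ (S.mul_mem hx huS) (A0.mul_mem hx0 hu0) h2
      rw [← hui]
      exact eq_inv_of_mul_eq_one_left h4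
  have hmem : ∀ x ∈ S, x ∈ A → x = 1 ∨ x = u ∨ x = z ∨ x = u * z := by
    intro x hx hxA
    by_cases hx0 : x ∈ A0
    · rcases hC x hx hx0 with h1 | h1
      · exact Or.inl h1
      · exact Or.inr (Or.inl h1)
    · right; right
      have h1 := h.twoA.2 x hxA z hzA hx0 hz0
      rcases hC _ (S.mul_mem hx hzS) h1 with h2 | h2
      · left
        rw [← hzi]
        exact eq_inv_of_mul_eq_one_left h2
      · right
        rw [← h2, mul_assoc, hzz, mul_one]
  -- orders
  have h4 : ¬ 4 ∣ Nat.card A0 := by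
    intro h4
    have : Fact (Nat.Prime 2) := ⟨Nat.prime_two⟩
    obtain ⟨K, hK⟩ := Sylow.exists_subgroup_card_pow_prime (G := A0) 2 (n := 2) (by norm_num; exact h4)
    have hle : Nat.card K ≤ 2 := by
      have hK1 : ∀ x : K, x.1.1 = 1 ∨ x.1.1 = u := by
        intro x
        refine hC _ (sy.uA _ x.1.2 ⟨2, ?_⟩) x.1.2
        have h5 : x ^ (2 ^ 2) = 1 := by
          rw [← hK]
          exact pow_card_eq_one'
        have h6 := congrArg (fun y : K => y.1.1) h5
        simpa using h6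
      classical
      have hinj : Function.Injective (fun x : K => (decide (x.1.1 = 1) : Bool)) := by
        intro x y hxy
        apply Subtype.ext
        apply Subtype.ext
        have hxy2 : (x.1.1 = 1) ↔ (y.1.1 = 1) := by
          simpa using hxy
        rcases hK1 x with h1 | h1
        · rw [h1, hxy2.1 h1]
        · rcases hK1 y with h2 | h2
          · rw [hxy2.2 h2, h2]
          · rw [h1, h2]
      have h7 := Nat.card_le_card_of_injective _ hinj
      simpa using h7
    rw [hK] at hle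
    norm_num at hle
  obtain ⟨k, hk⟩ := hA
  have hk2 : ¬ 2 ∣ k := by
    rintro ⟨l, rfl⟩
    exact h4 ⟨l, by rw [hk]; ring⟩
  have hS8 : Nat.card S = 8 := by
    have : Fact (Nat.Prime 2) := ⟨Nat.prime_two⟩
    obtain ⟨n, hn⟩ := IsPGroup.iff_card.1 sy.pg
    have h5 := S.card_mul_index
    rw [cG, hk, hn] at h5
    have h6 : 2 ^ n * S.index = 8 * (k * Nat.card B0) := by rw [h5]; ring
    have h7 : 2 ^ n ∣ 8 := by
      have h8 : Nat.Coprime (2 ^ n) (k * Nat.card B0) := by
        refine Nat.Coprime.pow_left _ ((Nat.Prime.coprime_iff_not_dvd Nat.prime_two).2 ?_)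
        intro h9
        rcases (Nat.Prime.dvd_mul Nat.prime_two).1 h9 with h9 | h9
        · exact hk2 h9
        · exact hB h9
      exact h8.dvd_of_dvd_mul_right ⟨_, h6.symm⟩
    have h8 : 8 ∣ 2 ^ n := by
      have h9 : Nat.Coprime 8 S.index := by
        have : Nat.Coprime (2 ^ 3) S.index :=
          Nat.Coprime.pow_left _ ((Nat.Prime.coprime_iff_not_dvd Nat.prime_two).2 sy.odd)
        simpa using this
      exact h9.dvd_of_dvd_mul_right ⟨_, h6⟩
    rw [hn]
    exact Nat.dvd_antisymm h7 h8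
  refine ⟨S, s, u, z, ⟨sy, hsS, hsB, hsn, ss, huS, hu0, huu, hu1, hzS, hzA, hz0, hzz, hmem, ?_,
    hsus, hsz, hS8, k, hk2, by rw [cA, hk]; ring⟩⟩
  exact (huA z hzA).symm

end Pool.Agent.H51.FKZ7A
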